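import Pool.Agent.Helper29.MX.Bas
import Pool.Agent.Helper70.CPW.Evf
import Pool.Agent.Helper71.VIS.Trk
import Pool.Agent.Helper81.CPY.Evn

/-! RIGID VOLUMES (row [RGU] of FIRST): if the volumes of the type-labels on all events of all extensions are at least the
volume of the system, they are equal to it; the same for truncations. -/

set_option autoImplicit false

namespace Pool.Agent.Helper82.RGU

open Finset Filter Topology Matrix Pool.Agent.Helper69.RK Pool.Agent.Helper31.EC Pool.Agent.Helper31.EC.Sp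
open Pool.Agent.Helper40.EL Pool.Agent.Helper89.LX Pool.Agent.Helper84.MT
open Pool.Agent.Helper29.MX
open Pool.Agent.Helper87.NSL (cndR)
open Pool.Agent.Helper7.RD (volCO)

noncomputable section

variable {S T : Sp} {N : ℕ} {E : ℕ → ℕ} {ι : Type}

theorem cndR_im (s : MSys S N E ι) (b : ℝ) (p : Pj T S) (A : ∀ k, (T.F k).Ω → Prop) (hA : 0 < ul (T.pr A)) :
    cndR (s.im p A hA) (rbot (Sp.im p A)) b = fun i => (cndR s (rbot S) b i).im p A := by
  funext i
  rcases i with _ | i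
  · rfl
  · rfl

theorem volKO_im (s : MSys S N E ι) (b : ℝ) (p : Pj T S) (A : ∀ k, (T.F k).Ω → Prop) (hA : 0 < ul (T.pr A)) :
    volKO (s.im p A hA) (rbot (Sp.im p A)) b =
      volCO (S := Sp.im p A) (LC.kz fun k => (fc ⊥ : FL ((Sp.im p A).F k))) (fun i => (cndR s (rbot S) b i).im p A)
        (s.Q.im p A) := by
  rw [volKO_eq, cndR_im]
  rfl

/-- RIGIDITY of the volumes of the type-labels -/
theorem volKO_rig [Finite ι] (s : MSys S N E ι) (b : ℝ)
    (hlow : ∀ (T : Sp) (p : Pj T S) (A : ∀ k, (T.F k).Ω → Prop) (hA : 0 < ul (T.pr A)),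
      volKO s (rbot S) b ≤ volKO (s.im p A hA) (rbot _) b) (T : Sp) (p : Pj T S) (A : ∀ k, (T.F k).Ω → Prop)
    (hA : 0 < ul (T.pr A)) : volKO (s.im p A hA) (rbot _) b = volKO s (rbot S) b := by
  have h1 : volCO (LC.kz fun k => (fc ⊥ : FL (S.F k))) (cndR s (rbot S) b) s.Q ≤ volKO s (rbot S) b :=
    (volKO_eq s (rbot S) b).ge
  have h2 := Pool.Agent.Helper70.CPW.volCO_rig h1 (fun T p A hA => by
    rw [← volKO_im s b p A hA]
    exact hlow T p A hA) p A hA
  rw [volKO_im]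
  exact h2

/-- the same for a truncation -/
theorem trn_rig [Finite ι] (s : MSys S N E ι) {e : ℝ} (h0 : 0 < e) (h1 : e ≤ 1) (b : ℝ)
    (hlow : ∀ (T : Sp) (p : Pj T S) (A : ∀ k, (T.F k).Ω → Prop) (hA : 0 < ul (T.pr A)),
      volKO (s.trn e h0 h1) (rbot _) b ≤ volKO ((s.im p A hA).trn e h0 h1) (rbot _) b) (T : Sp) (p : Pj T S)
    (A : ∀ k, (T.F k).Ω → Prop) (hA : 0 < ul (T.pr A)) :
    volKO ((s.im p A hA).trn e h0 h1) (rbot _) b = volKO (s.trn e h0 h1) (rbot _) b := by
  have h2 := volKO_rig (s.trn e h0 h1) b (fun T' p' A' hA' =>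
    hlow _ (Pool.Agent.Helper42.NS.ptu p') A' hA') _ (Pool.Agent.Helper81.CPY.pjb p S.tr e h0) A hA
  exact h2

end

end Pool.Agent.Helper82.RGU
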