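import Pool.Agent.Helper15.FST.St
import Pool.Agent.Helper82.RGU.Rig

/-! Row [RGU] of FIRST. -/

set_option autoImplicit false

namespace Pool.Agent.Helper82.RGU

open Finset Filter Topology Matrix Pool.Agent.Helper69.RK Pool.Agent.Helper31.EC Pool.Agent.Helper31.EC.Sp
open Pool.Agent.Helper40.EL Pool.Agent.Helper89.LX Pool.Agent.Helper84.MT
open Pool.Agent.Helper29.MX
open Pool.Agent.Helper15.FST (UL ROW_RGU)

theorem UL_eq {S : Sp} {N : ℕ} {E : ℕ → ℕ} {ι : Type} (s : MSys S N E ι) {e : ℝ} (h0 : 0 < e) (h1 : e ≤ 1) (c : ℝ) :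
    UL s e c = e * (N - volKO (s.trn e h0 h1) (rbot (S.chg S.tr e h0)) (c / e)) := by
  unfold UL
  rw [dif_pos ⟨h0, h1⟩]

/-- **[RGU]** -/
theorem row_rgu : ROW_RGU := by
  intro N g r S s e c h0 h1 _ _ h T p A hA
  have h2 := trn_rig s h0 h1 (c / e) (fun T p A hA => by
    have h3 := h T p A hA
    rw [UL_eq _ h0 h1, UL_eq _ h0 h1] at h3
    have h4 := le_of_mul_le_mul_left h3 h0
    linarith) T p A hA
  rw [UL_eq _ h0 h1, UL_eq _ h0 h1, h2]

end Pool.Agent.Helper82.RGU
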